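import Pool.Agent.H48.ER.Targets

set_option autoImplicit false

open Pool.Agent.H48.ER

namespace Pool.Agent.H50.ER

theorem lif_del_adj {V : Type} {G : SimpleGraph V} {v a b : V} :
    (del G v).Adj a b ↔ a ≠ v ∧ b ≠ v ∧ G.Adj a b := Iff.rfl

/-- a simplicial vertex is not an inner vertex of a chordless path -/
theorem lif_not_inner {V : Type} {G : SimpleGraph V} {v p q : V} {n : ℕ} {R : Set V}
    (hcl : ∀ u w, G.Adj v u → G.Adj v w → u ≠ w → G.Adj u w) (hp : p ≠ v) (hq : q ≠ v)
    (h : IP G n p q R) : v ∉ R := by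
  intro hv
  obtain ⟨i, j, R1, R2, h1, h2, hij, hun, hin, hne⟩ := h.split hv
  have hi : i ≠ 0 := by
    rintro rfl
    exact hp h1.eq_of_zero.1
  have hj : j ≠ 0 := by
    rintro rfl
    exact hq h2.eq_of_zero.1.symm
  obtain ⟨i', rfl⟩ := Nat.exists_eq_succ_of_ne_zero hi
  obtain ⟨j', rfl⟩ := Nat.exists_eq_succ_of_ne_zero hj
  obtain ⟨x1, hx1, hx1R, -, -⟩ := h1.rev.tail
  obtain ⟨x2, hx2, hx2R, -, -⟩ := h2.tail
  have h12 : x1 ≠ x2 := by
    rintro rfl
    have h3 : x1 ∈ R1 ∩ R2 := ⟨hx1R, hx2R⟩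
    rw [hin] at h3
    exact hx1.ne (Set.mem_singleton_iff.1 h3).symm
  exact hne x1 ⟨hx1R, fun e => hx1.ne (Set.mem_singleton_iff.1 e).symm⟩ x2
    ⟨hx2R, fun e => hx2.ne (Set.mem_singleton_iff.1 e).symm⟩ (hcl x1 x2 hx1 hx2 h12)

theorem lif_main {V : Type} : ∀ (G1 : SimpleGraph V) (S1 : Set V), CT G1 S1 →
    ∀ (G : SimpleGraph V) (v : V), v ∉ S1 → G1 = del G v → Sup G (insert v S1) →
      (∀ u w, G.Adj v u → G.Adj v w → u ≠ w → G.Adj u w) → CT G (insert v S1) := by
  intro G1 S1 hCT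
  induction hCT with
  | clique G1 S1 hc =>
    intro G v hv hG1 hS hcl
    have hc' : ∀ u ∈ S1, ∀ w ∈ S1, u ≠ w → G.Adj u w := by
      intro u hu w hw huw
      have h1 := hc u hu w hw huw
      rw [hG1, lif_del_adj] at h1
      exact h1.2.2
    by_cases hall : ∀ u ∈ S1, G.Adj v u
    · apply CT.clique
      intro u hu w hw huw
      rcases hu with rfl | hu
      · rcases hw with rfl | hw
        · exact absurd rfl huw
        · exact hall w hw
      · rcases hw with rfl | hw
        · exact (hall u hu).symm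
        · exact hc' u hu w hw huw
    · push Not at hall
      obtain ⟨u, hu, huv⟩ := hall
      have hne : u ≠ v := fun e => hv (e ▸ hu)
      apply CT.step G (insert v S1) u v (Or.inr hu) (Or.inl rfl)
      · refine ⟨hne, fun h => huv h.symm, ?_⟩
        intro n R hR
        have hn0 : n ≠ 0 := by
          rintro rfl
          exact hne hR.eq_of_zero.1
        obtain ⟨k, rfl⟩ := Nat.exists_eq_succ_of_ne_zero hn0
        obtain ⟨x, hvx, hxR, hxP, -⟩ := hR.rev.tail
        have hxS : x ∈ S1 := by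
          rcases (hS v x hvx).2 with h | h
          · exact absurd h hvx.ne.symm
          · exact h
        have hxu : x ≠ u := fun e => huv (e ▸ hvx)
        have hk : k = 1 := hxP.adj_iff.1 (hc' x hxS u hu hxu)
        rw [hk]
        exact even_two
      · have hset : (insert v S1 : Set V) \ {v} = S1 := by
          ext w
          constructor
          · rintro ⟨h1 | h1, h2⟩
            · exact absurd h1 h2
            · exact h1
          · intro h1
            exact ⟨Or.inr h1, fun e => hv ((Set.mem_singleton_iff.1 e) ▸ h1)⟩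
        rw [hset]
        apply CT.clique
        intro x hx w hw hxw
        exact ⟨hxw, fun e => hv (e ▸ hx), fun e => hv (e ▸ hw), Or.inl (hc' x hx w hw hxw)⟩
  | step G1 S1 p q hp hq hE hc ih =>
    intro G v hv hG1 hS hcl
    have hpv : p ≠ v := fun e => hv (e ▸ hp)
    have hqv : q ≠ v := fun e => hv (e ▸ hq)
    have hset : (insert v S1 : Set V) \ {q} = insert v (S1 \ {q}) := by
      ext w
      constructor
      · rintro ⟨h1 | h1, h2⟩
        · exact Or.inl h1
        · exact Or.inr ⟨h1, h2⟩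
      · rintro (h1 | ⟨h1, h2⟩)
        · exact ⟨Or.inl h1, fun e => hqv ((Set.mem_singleton_iff.1 e).symm.trans h1)⟩
        · exact ⟨Or.inr h1, h2⟩
    apply CT.step G (insert v S1) p q (Or.inr hp) (Or.inr hq)
    · refine ⟨hE.1, ?_, ?_⟩
      · intro h
        apply hE.2.1
        rw [hG1, lif_del_adj]
        exact ⟨hpv, hqv, h⟩
      · intro n R hR
        have hvR := lif_not_inner hcl hpv hqv hR
        apply hE.2.2 n R
        apply hR.congr
        intro u hu w hw
        rw [hG1, lif_del_adj]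
        constructor
        · intro h; exact h.2.2
        · intro h
          exact ⟨fun e => hvR (e ▸ hu), fun e => hvR (e ▸ hw), h⟩
    · rw [hset]
      apply ih (ctr G p q) v
      · exact fun h => hv h.1
      · rw [hG1]
        ext x y
        rw [lif_del_adj, ctr_adj, ctr_adj, lif_del_adj, lif_del_adj, lif_del_adj]
        constructor
        · rintro ⟨h1, h2, h3, ⟨h4, h5, h6⟩ | ⟨h4, h5, h6, h7⟩ | ⟨h4, h5, h6, h7⟩⟩
          · exact ⟨h4, h5, h1, h2, h3, Or.inl h6⟩
          · exact ⟨fun e => hpv (h4.symm.trans e), h6, h1, h2, h3, Or.inr (Or.inl ⟨h4, h7⟩)⟩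
          · exact ⟨h5, fun e => hpv (h4.symm.trans e), h1, h2, h3, Or.inr (Or.inr ⟨h4, h7⟩)⟩
        · rintro ⟨h1, h2, h3, h4, h5, h6 | ⟨h6, h7⟩ | ⟨h6, h7⟩⟩
          · exact ⟨h3, h4, h5, Or.inl ⟨h1, h2, h6⟩⟩
          · exact ⟨h3, h4, h5, Or.inr (Or.inl ⟨h6, hqv, h2, h7⟩)⟩
          · exact ⟨h3, h4, h5, Or.inr (Or.inr ⟨h6, h1, hqv, h7⟩)⟩
      · intro x y hxy
        have hmem : ∀ w, w ∈ (insert v S1 : Set V) → w ≠ q → w ∈ (insert v (S1 \ {q}) : Set V) := by
          rintro w (h1 | h1) h2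
          · exact Or.inl h1
          · exact Or.inr ⟨h1, h2⟩
        rw [ctr_adj] at hxy
        obtain ⟨h1, h2, h3, h4 | ⟨h4, h5⟩ | ⟨h4, h5⟩⟩ := hxy
        · exact ⟨hmem x (hS x y h4).1 h2, hmem y (hS x y h4).2 h3⟩
        · exact ⟨hmem x (h4 ▸ Or.inr hp) h2, hmem y (hS q y h5).2 h3⟩
        · exact ⟨hmem x (hS x q h5).1 h2, hmem y (h4 ▸ Or.inr hp) h3⟩
      · intro x y hx hy hxy
        rw [ctr_adj] at hx hy ⊢
        obtain ⟨h1, h2, h3, h4⟩ := hx
        obtain ⟨k1, k2, k3, k4⟩ := hy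
        refine ⟨hxy, h3, k3, ?_⟩
        rcases h4 with h4 | ⟨h4, h5⟩ | ⟨h4, h5⟩
        · rcases k4 with k4 | ⟨k4, k5⟩ | ⟨k4, k5⟩
          · exact Or.inl (hcl x y h4 k4 hxy)
          · exact absurd k4.symm hpv
          · exact Or.inr (Or.inr ⟨k4, hcl x q h4 k5 h3⟩)
        · exact absurd h4.symm hpv
        · rcases k4 with k4 | ⟨k4, k5⟩ | ⟨k4, k5⟩
          · exact Or.inr (Or.inl ⟨h4, hcl q y h5 k4 k3.symm⟩)
          · exact absurd k4.symm hpv
          · exact absurd (h4.trans k4.symm) hxy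

theorem pf_LIF : T_LIF := by
  intro V G S v hS hv hcl hCT
  have hset : (insert v (S \ {v}) : Set V) = S := by
    ext w
    constructor
    · rintro (h1 | h1)
      · rw [h1]; exact hv
      · exact h1.1
    · intro h1
      by_cases e : w = v
      · exact Or.inl e
      · exact Or.inr ⟨h1, e⟩
  have h := lif_main (del G v) (S \ {v}) hCT G v (fun h => h.2 rfl) rfl (by rw [hset]; exact hS) hcl
  rwa [hset] at h

end Pool.Agent.H50.ER
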