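import Pool.Agent.H48.ER.Targets

set_option autoImplicit false

open Pool.Agent.H48.ER

namespace Pool.Agent.H50.ER

theorem Cnr_symm {V : Type} {G : SimpleGraph V} {P : Fin 3 → Set V} {i j : Fin 3} {l : ℕ}
    {d d' : V} {R : Set V} (h : Cnr G P i j l d d' R) : Cnr G P j i l d' d R := by
  obtain ⟨h1, h2, h3⟩ := h
  exact ⟨h1.rev, h2, fun r hr g hg hadj => (h3 r hr g hg hadj).symm⟩

theorem pf_PLL (hTRI : T_TRI) (hPLU : T_PLU) (hPLN : T_PLN) (hPLA : T_PLA) (hPLB : T_PLB)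
    (hPL3 : T_PL3) (hPLM : T_PLM) : T_PLL := by
  intro V G a b n P D hH hP hE hC hD hex
  obtain ⟨hPr, hev⟩ := hE
  rcases hPLM V G P D hPr.dis hC hD hex with ⟨d, hdD, hd⟩ | ⟨i, j, l, d, d', R, hij, hCnr, hRD,
    ⟨g, hg, hdg⟩, ⟨g', hg', hdg'⟩⟩
  · have hd2 : d ∉ ver P := Set.disjoint_left.1 hD hdD
    rcases hPL3 V G a b n P d hH hPr hd2 hd with ⟨i, j, hij, h1, h2⟩ | ⟨i, j, hij, h1, h2⟩
    · exact Or.inl ⟨i, j, hij, ⟨d, hdD, h1⟩, ⟨d, hdD, h2⟩⟩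
    · exact Or.inr ⟨i, j, hij, ⟨d, hdD, h1⟩, ⟨d, hdD, h2⟩⟩
  · have hdR : d ∈ R := hCnr.1.left_mem
    have hd'R : d' ∈ R := hCnr.1.right_mem
    have hdi : d ∉ P i := fun h => hCnr.2.1 d hdR ⟨i, h⟩
    have hd'j : d' ∉ P j := fun h => hCnr.2.1 d' hd'R ⟨j, h⟩
    have hCs := Cnr_symm hCnr
    have key : (G.Adj d (a i) ∧ G.Adj d' (a j)) ∨ (G.Adj d (b i) ∧ G.Adj d' (b j)) := by
      have swap : (G.Adj d' (a j) ∧ G.Adj d (a i)) ∨ (G.Adj d' (b j) ∧ G.Adj d (b i)) →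
          (G.Adj d (a i) ∧ G.Adj d' (a j)) ∨ (G.Adj d (b i) ∧ G.Adj d' (b j)) := by
        rintro (⟨h1, h2⟩ | ⟨h1, h2⟩)
        · exact Or.inl ⟨h2, h1⟩
        · exact Or.inr ⟨h2, h1⟩
      rcases hTRI V G (n i) (a i) (b i) d (P i) (hPr.ip i) hdi ⟨g, hg, hdg⟩ with
        ⟨g1, h1⟩ | ⟨g1, g2, h1⟩ | ⟨g1, g2, h1⟩
      · rcases hTRI V G (n j) (a j) (b j) d' (P j) (hPr.ip j) hd'j ⟨g', hg', hdg'⟩ with
          ⟨g3, h3⟩ | ⟨g3, g4, h3⟩ | ⟨g3, g4, h3⟩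
        · exact hPLU V G a b n P i j l d d' g1 g3 R hH hPr hij hCnr h1 h3
        · exact swap (hPLA V G a b n P j i l d' d g3 g4 g1 R hH hPr hij.symm hCs h3 h1)
        · exact swap (hPLN V G a b n P j i l d' d g3 g4 g R hH hPr hij.symm hCs h3 hg hdg)
      · rcases hTRI V G (n j) (a j) (b j) d' (P j) (hPr.ip j) hd'j ⟨g', hg', hdg'⟩ with
          ⟨g3, h3⟩ | ⟨g3, g4, h3⟩ | ⟨g3, g4, h3⟩
        · exact hPLA V G a b n P i j l d d' g1 g2 g3 R hH hPr hij hCnr h1 h3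
        · exact hPLB V G a b n P i j l d d' g1 g2 g3 g4 R hH hP ⟨hPr, hev⟩ hij hCnr h1 h3
        · exact swap (hPLN V G a b n P j i l d' d g3 g4 g R hH hPr hij.symm hCs h3 hg hdg)
      · exact hPLN V G a b n P i j l d d' g1 g2 g' R hH hPr hij hCnr h1 hg' hdg'
    rcases key with ⟨h1, h2⟩ | ⟨h1, h2⟩
    · exact Or.inl ⟨i, j, hij, ⟨d, hRD hdR, h1⟩, ⟨d', hRD hd'R, h2⟩⟩
    · exact Or.inr ⟨i, j, hij, ⟨d, hRD hdR, h1⟩, ⟨d', hRD hd'R, h2⟩⟩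

end Pool.Agent.H50.ER
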