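import Pool.Agent.H48.ER.Targets

set_option autoImplicit false

open Pool.Agent.H48.ER

namespace Pool.Agent.H50.ER

theorem pf_RER (hTRI : T_TRI) (hEVN : T_EVN) : T_RER := by
  classical
  intro V G a b n P c g h i hH hPr hc hcP hst hg hh hgh hcg hch
  have hci : c ∉ P i := fun h => hc ⟨i, h⟩
  rcases hTRI V G (n i) (a i) (b i) c (P i) (hPr.ip i) hci ⟨g, hg, hcg⟩ with
    ⟨g1, hAU⟩ | ⟨g1, g2, hAA⟩ | ⟨g1, g2, hAN⟩
  · obtain ⟨-, -, -, -, -, -, -, -, -, -, hadj⟩ := hAU
    exact absurd (((hadj g hg).1 hcg).trans ((hadj h hh).1 hch).symm) hgh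
  · obtain ⟨i1, j1, R1, R2, h1, h2, -, hun, -, hXE, hadj⟩ := hAA
    have m1 : g1 ∈ P i := by rw [← hun]; exact Or.inl h1.right_mem
    have m2 : g2 ∈ P i := by rw [← hun]; exact Or.inr h2.left_mem
    have e1 : G.Adj g1 g2 := (hXE g1 h1.right_mem g2 h2.left_mem).2 ⟨rfl, rfl⟩
    exact absurd e1 (hst g1 ⟨i, m1⟩ g2 ⟨i, m2⟩ ((hadj g1 m1).2 (Or.inl rfl))
      ((hadj g2 m2).2 (Or.inr rfl)))
  · obtain ⟨i1, j1, R1, R2, h1, h2, -, hR1, hR2, hdis, hNE, hadj1, hadj2⟩ := hAN
    have hcR1 : c ∉ R1 := fun h => hci (hR1 h)
    have hcR2 : c ∉ R2 := fun h => hci (hR2 h)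
    have hs := h1.snoc hcR1 hadj1
    have hd2 : Disjoint (insert c R1) R2 := by
      rw [Set.disjoint_left]
      rintro w (rfl | hw) hw2
      · exact hcR2 hw2
      · exact Set.disjoint_left.1 hdis hw hw2
    have hX : XE G (insert c R1) R2 c g2 := by
      rintro s (rfl | hs1) t ht
      · rw [hadj2 t ht]
        simp
      · constructor
        · intro hst'
          exact absurd hst' (hNE s hs1 t ht)
        · rintro ⟨rfl, -⟩
          exact absurd hs1 hcR1
    have hnew := hs.append h2 hd2 hX
    have hsub : ∀ w ∈ (insert c R1 ∪ R2 : Set V), w = c ∨ w ∈ P i := by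
      rintro w ((hw | hw) | hw)
      · exact Or.inl hw
      · exact Or.inr (hR1 hw)
      · exact Or.inr (hR2 hw)
    have hkey : ∀ k, k ≠ i → ∀ u ∈ (insert c R1 ∪ R2 : Set V), ∀ v ∈ P k,
        G.Adj u v ↔ (u = a i ∧ v = a k) ∨ (u = b i ∧ v = b k) := by
      intro k hk u hu v hv
      rcases hsub u hu with rfl | hu'
      · constructor
        · intro huv
          have h3 := hcP v ⟨k, hv⟩ huv
          exact absurd (hPr.rung hv h3) hk
        · rintro (⟨h3, -⟩ | ⟨h3, -⟩)
          · exact absurd (h3 ▸ hPr.a_mem i) hci
          · exact absurd (h3 ▸ hPr.b_mem i) hci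
      · exact hPr.adj i k hk.symm u hu' v hv
    have hdk : ∀ k, k ≠ i → Disjoint (insert c R1 ∪ R2 : Set V) (P k) := by
      intro k hk
      rw [Set.disjoint_left]
      intro u hu hv
      rcases hsub u hu with rfl | hu'
      · exact hc ⟨k, hv⟩
      · exact hk (hPr.rung hv hu')
    have hPr' : Prism G a b (Function.update n i (i1 + 1 + j1 + 1))
        (Function.update P i (insert c R1 ∪ R2)) := by
      refine ⟨?_, ?_, ?_, ?_⟩
      · intro k
        by_cases hk : k = i
        · subst hk
          rw [Function.update_self, Function.update_self]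
          exact hnew
        · rw [Function.update_of_ne hk, Function.update_of_ne hk]
          exact hPr.ip k
      · intro k
        by_cases hk : k = i
        · subst hk
          rw [Function.update_self]
          omega
        · rw [Function.update_of_ne hk]
          exact hPr.pos k
      · intro k l hkl
        by_cases hk : k = i
        · subst hk
          rw [Function.update_self, Function.update_of_ne hkl.symm]
          exact hdk l hkl.symm
        · rw [Function.update_of_ne hk]
          by_cases hl : l = i
          · subst hl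
            rw [Function.update_self]
            exact (hdk k hk).symm
          · rw [Function.update_of_ne hl]
            exact hPr.dis k l hkl
      · intro k l hkl
        by_cases hk : k = i
        · subst hk
          rw [Function.update_self, Function.update_of_ne hkl.symm]
          exact hkey l hkl.symm
        · rw [Function.update_of_ne hk]
          by_cases hl : l = i
          · subst hl
            rw [Function.update_self]
            intro u hu v hv
            rw [SimpleGraph.adj_comm, hkey k hk v hv u hu]
            exact or_congr and_comm and_comm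
          · rw [Function.update_of_ne hl]
            exact hPr.adj k l hkl
    refine ⟨_, _, hPr', ⟨i, ?_⟩, ?_⟩
    · rw [Function.update_self]
      exact Or.inl (Or.inl rfl)
    · intro j
      by_cases hj : j = i
      · subst hj
        obtain ⟨k, hk⟩ : ∃ k : Fin 3, k ≠ j := by
          fin_cases j
          · exact ⟨1, by decide⟩
          · exact ⟨0, by decide⟩
          · exact ⟨0, by decide⟩
        obtain ⟨p, hp⟩ := (hEVN V G a b _ _ hH hPr').1 j k
        obtain ⟨q, hq⟩ := (hEVN V G a b _ _ hH hPr).1 j k
        rw [Function.update_self, Function.update_of_ne hk] at hp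
        rw [Function.update_self]
        exact ⟨p + q - n k, by omega⟩
      · rw [Function.update_of_ne hj]
        exact ⟨n j, rfl⟩

end Pool.Agent.H50.ER
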