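import Pool.Agent.H48.ER.Targets

set_option autoImplicit false

open Pool.Agent.H48.ER

namespace Pool.Agent.H50.ER

theorem twc_att_adj {V : Type} {G : SimpleGraph V} {v : V} {N : Set V} {a b : V} :
    (att G v N).Adj a b ↔ a ≠ b ∧ (G.Adj a b ∨ (a = v ∧ b ∈ N) ∨ (b = v ∧ a ∈ N)) := Iff.rfl

theorem pf_TWC (hEC : T_EC) (hADD : T_ADD) : T_TWC := by
  classical
  intro V _ G v x y z hG hvx hvz hxz hN
  have hG1 : Tw3 (ctr G x v) := hEC V G x v hG hvx.symm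
  have h1xz : (ctr G x v).Adj x z := by
    rw [ctr_adj]
    exact ⟨hxz, hvx.ne.symm, hvz.ne.symm, Or.inr (Or.inl ⟨rfl, hvz⟩)⟩
  have hG2 : Tw3 (ctr (ctr G x v) x z) := hEC V _ x z hG1 h1xz
  have hv1 : ∀ w, ¬ (ctr G x v).Adj v w := fun w h => h.2.1 rfl
  have hiso : ∀ w, ¬ (ctr (ctr G x v) x z).Adj v w := by
    intro w h
    rw [ctr_adj] at h
    obtain ⟨-, -, -, h4 | ⟨h4, h5⟩ | ⟨h4, h5⟩⟩ := h
    · exact hv1 w h4
    · exact hvx.ne h4
    · exact hv1 z h5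
  -- the clique
  let N : Set V := {w | w = x ∨ (w = y ∧ G.Adj v y ∧ y ≠ z)}
  have hNsub : N ⊆ {x, y} := by
    rintro w (h | h)
    · exact Or.inl h
    · exact Or.inr h.1
  have hcard : N.ncard ≤ 3 := by
    have h1 : N.ncard ≤ ({x, y} : Set V).ncard := Set.ncard_le_ncard hNsub (Set.toFinite _)
    have h2 : ({x, y} : Set V).ncard ≤ ({y} : Set V).ncard + 1 := Set.ncard_insert_le x {y}
    rw [Set.ncard_singleton] at h2
    omega
  have hvN : v ∉ N := by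
    rintro (h | h)
    · exact hvx.ne h
    · exact h.2.1.ne h.1
  have hxy : ∀ w, (w = y ∧ G.Adj v y ∧ y ≠ z) → x ≠ w → (ctr (ctr G x v) x z).Adj x w := by
    rintro w ⟨rfl, h2, h3⟩ hne
    rw [ctr_adj]
    refine ⟨hne, hxz, h3, Or.inl ?_⟩
    rw [ctr_adj]
    exact ⟨hne, hvx.ne.symm, h2.ne.symm, Or.inr (Or.inl ⟨rfl, h2⟩)⟩
  have hcl : ∀ u ∈ N, ∀ w ∈ N, u ≠ w → (ctr (ctr G x v) x z).Adj u w := by
    rintro u (hu | hu) w (hw | hw) huw
    · exact absurd (hu.trans hw.symm) huw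
    · rw [hu] at huw ⊢
      exact hxy w hw huw
    · rw [hw] at huw ⊢
      exact (hxy u hu huw.symm).symm
    · exact absurd (hu.1.trans hw.1.symm) huw
  have hA := hADD V (ctr (ctr G x v) x z) v N hG2 hiso hvN hcard hcl
  refine hA.mono ?_
  intro a b hab
  rw [ctr_adj] at hab
  obtain ⟨h1, h2, h3, h4⟩ := hab
  rw [twc_att_adj]
  refine ⟨h1, ?_⟩
  have key : ∀ w, w ≠ z → (G.Adj v w ∨ w = x) → w ∈ N := by
    rintro w hw (h | h)
    · rcases hN w h with rfl | rfl | rfl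
      · exact Or.inl rfl
      · exact Or.inr ⟨rfl, h, hw⟩
      · exact absurd rfl hw
    · exact Or.inl h
  by_cases hav : a = v
  · right; left
    refine ⟨hav, key b h3 ?_⟩
    rcases h4 with h4 | ⟨h4, h5⟩ | ⟨h4, h5⟩
    · rw [hav] at h4; exact Or.inl h4
    · exact absurd (hav.symm.trans h4) hvx.ne
    · exact Or.inr h4
  by_cases hbv : b = v
  · right; right
    refine ⟨hbv, key a h2 ?_⟩
    rcases h4 with h4 | ⟨h4, h5⟩ | ⟨h4, h5⟩
    · rw [hbv] at h4; exact Or.inl h4.symm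
    · exact Or.inr h4
    · exact absurd (hbv.symm.trans h4) hvx.ne
  left
  rw [ctr_adj]
  refine ⟨h1, h2, h3, ?_⟩
  rcases h4 with h4 | ⟨h4, h5⟩ | ⟨h4, h5⟩
  · left
    rw [ctr_adj]
    exact ⟨h1, hav, hbv, Or.inl h4⟩
  · right; left
    refine ⟨h4, ?_⟩
    rw [ctr_adj]
    exact ⟨h3.symm, hvz.ne.symm, hbv, Or.inl h5⟩
  · right; right
    refine ⟨h4, ?_⟩
    rw [ctr_adj]
    exact ⟨h2, hav, hvz.ne.symm, Or.inl h5⟩

end Pool.Agent.H50.ER
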